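import Pool.Agent.P.MP_4cdbd9_pr.Defs

/-! The chain with `ρ = 9/10`, `q = 1/2`: drift bounds, comparison lemma, existence of a
stationary law. -/

namespace Pool.Agent.P.MP_4cdbd9_pr

open Filter Topology Finset

/-- Binomial averaging. -/
def Bop {K : Type} [Field K] (h : ℕ × ℕ → K) (n L : ℕ) : K :=
  ∑ m ∈ range (L + 1), (L.choose m : K) * (1 / 2) ^ L * h (n + m, L - m)

/-- The transition operator acting on functions. -/
def Top {K : Type} [Field K] (h : ℕ × ℕ → K) (x : ℕ × ℕ) : K :=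
  1 / 10 * Bop h (x.1 - 1) x.2 + 9 / 10 * Bop h (x.1 - 1) (x.2 + 1)

theorem Top_cast (h : ℕ × ℕ → ℚ) (x : ℕ × ℕ) :
    Top (fun y => (h y : ℝ)) x = ((Top h x : ℚ) : ℝ) := by
  simp [Top, Bop]

theorem sum_trans (h : ℕ × ℕ → ℝ) (S : Finset (ℕ × ℕ)) (hS : ∀ y ∉ S, h y = 0) (x : ℕ × ℕ) :
    ∑ y ∈ S, trans (9 / 10) (1 / 2) x y * h y = Top h x := by
  have e : ∀ m, x.1 + m - (if 0 < x.1 then 1 else 0) = x.1 - 1 + m := by
    intro m
    split_ifs <;> omega
  have key : ∀ (w : ℝ) (L : ℕ), ∑ y ∈ S, (∑ m ∈ range (L + 1),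
      if y = (x.1 - 1 + m, L - m) then
        w * ((L.choose m : ℝ) * (1 - 1 / 2) ^ m * (1 / 2) ^ (L - m)) else 0) * h y =
      w * Bop h (x.1 - 1) L := by
    intro w L
    simp only [sum_mul, Bop, mul_sum]
    rw [sum_comm]
    refine sum_congr rfl fun m hm => ?_
    have hm' : m ≤ L := Nat.lt_succ_iff.1 (mem_range.1 hm)
    have e2 : ((1 : ℝ) - 1 / 2) ^ m * (1 / 2) ^ (L - m) = (1 / 2) ^ L := by
      rw [show (1 : ℝ) - 1 / 2 = 1 / 2 by norm_num, ← pow_add, Nat.add_sub_cancel' hm']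
    simp only [ite_mul, zero_mul, sum_ite_eq']
    split_ifs with hy
    · rw [mul_assoc (L.choose m : ℝ), e2]; ring
    · rw [hS _ hy]; simp
  have k0 := key (1 - 9 / 10) x.2
  have k1 := key (9 / 10) (x.2 + 1)
  simp only [trans, e, sum_range_succ (n := 1), sum_range_one, add_mul, sum_add_distrib, add_zero,
    zero_ne_one, if_false, if_true]
  rw [k0, k1, Top]
  norm_num

theorem Bop_mono {h h' : ℕ × ℕ → ℝ} (H : ∀ y, h y ≤ h' y) (n L : ℕ) : Bop h n L ≤ Bop h' n L :=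
  sum_le_sum fun _ _ => mul_le_mul_of_nonneg_left (H _) (by positivity)

theorem Top_mono {h h' : ℕ × ℕ → ℝ} (H : ∀ y, h y ≤ h' y) (x : ℕ × ℕ) : Top h x ≤ Top h' x := by
  have h1 := Bop_mono H (x.1 - 1) x.2
  have h2 := Bop_mono H (x.1 - 1) (x.2 + 1)
  simp only [Top]
  linarith

theorem Bop_pow (α β : ℝ) (n L : ℕ) :
    Bop (fun y => α ^ y.1 * β ^ y.2) n L = α ^ n * ((α + β) / 2) ^ L := by
  rw [div_pow, add_pow, sum_div, mul_sum, Bop]
  refine sum_congr rfl fun m _ => ?_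
  simp only [pow_add, one_div, inv_pow]
  ring

theorem Top_pow (α β : ℝ) (x : ℕ × ℕ) : Top (fun y => α ^ y.1 * β ^ y.2) x =
    α ^ (x.1 - 1) * ((α + β) / 2) ^ x.2 * (1 / 10 + 9 / 10 * ((α + β) / 2)) := by
  simp only [Top, Bop_pow]
  ring

/-- The transition operator as a linear map. -/
noncomputable def TopL : (ℕ × ℕ → ℝ) →ₗ[ℝ] (ℕ × ℕ → ℝ) where
  toFun := Top
  map_add' h h' := by
    funext x
    simp only [Top, Bop, Pi.add_apply, mul_add, sum_add_distrib]
    ring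
  map_smul' c h := by
    funext x
    simp only [Top, Bop, Pi.smul_apply, smul_eq_mul, RingHom.id_apply, mul_add, mul_sum]
    congr 1 <;> exact sum_congr rfl fun _ _ => by ring

theorem Top_const (c : ℝ) (x : ℕ × ℕ) : Top (fun _ => c) x = c := by
  have h1 := Top_pow 1 1 x
  have h2 := congrFun (TopL.map_smul c fun _ => 1) x
  simp only [one_pow, mul_one] at h1
  norm_num at h1
  simp only [TopL, LinearMap.coe_mk, AddHom.coe_mk, Pi.smul_apply, smul_eq_mul, h1, mul_one] at h2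
  convert h2 using 2
  funext y
  simp

theorem Top_add (h h' : ℕ × ℕ → ℝ) (x : ℕ × ℕ) :
    Top (fun y => h y + h' y) x = Top h x + Top h' x :=
  congrFun (TopL.map_add h h') x

theorem Top_mul (c : ℝ) (h : ℕ × ℕ → ℝ) (x : ℕ × ℕ) : Top (fun y => c * h y) x = c * Top h x :=
  congrFun (TopL.map_smul c h) x

theorem Top_const_sub (c : ℝ) (h : ℕ × ℕ → ℝ) (x : ℕ × ℕ) :
    Top (fun y => c - h y) x = c - Top h x := by
  have h1 := Top_add (fun _ => c) (fun y => -1 * h y) x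
  rw [Top_const, Top_mul] at h1
  simpa [sub_eq_add_neg] using h1

theorem Top_eq_zero {h : ℕ × ℕ → ℝ} {s : ℕ} (H : ∀ y : ℕ × ℕ, s < y.1 + y.2 → h y = 0)
    {x : ℕ × ℕ} (hx : s + 1 < x.1 + x.2) : Top h x = 0 := by
  have key : ∀ L, x.2 ≤ L → Bop h (x.1 - 1) L = 0 := fun L hL =>
    sum_eq_zero fun m hm => by
      have := mem_range.1 hm
      rw [H _ (by simp only; omega), mul_zero]
  simp [Top, key]

variable {π : ℕ × ℕ → ℝ}

theorem hasSum_Top (hπ : IsStationary (9 / 10) (1 / 2) π) (h : ℕ × ℕ → ℝ) (S : Finset (ℕ × ℕ))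
    (hS : ∀ y ∉ S, h y = 0) : HasSum (fun x => π x * Top h x) (∑ y ∈ S, π y * h y) := by
  have h1 := hasSum_sum (s := S) fun y _ => (hπ.2.2 y).mul_right (h y)
  have e : (fun x => π x * Top h x) =
      fun x => ∑ y ∈ S, π x * trans (9 / 10) (1 / 2) x y * h y := by
    funext x
    rw [← sum_trans h S hS, mul_sum]
    exact sum_congr rfl fun y _ => by ring
  rw [e]
  exact h1

theorem compare (hπ : IsStationary (9 / 10) (1 / 2) π) (Φ g : ℕ × ℕ → ℝ) (a E : ℝ)
    (hfin : ∀ M : ℝ, {x | Φ x ≤ M}.Finite) (hineq : ∀ x, g x + Top Φ x ≤ Φ x + a)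
    (hg : HasSum (fun x => π x * g x) E) : E ≤ a := by
  have h1 : HasSum (fun x => π x * (g x - a)) (E - a) := by
    have := hg.sub (hπ.2.1.mul_right a)
    simpa [mul_sub] using this
  have h2 : ∀ M : ℝ, ∑ x ∈ (hfin M).toFinset, π x * (g x - a) ≤ 0 := by
    intro M
    set S := (hfin M).toFinset
    have hmem : ∀ x, x ∈ S ↔ Φ x ≤ M := fun x => by simp [S]
    set W : ℕ × ℕ → ℝ := fun x => max (M - Φ x) 0 with hW
    have hW0 : ∀ y ∉ S, W y = 0 := fun y hy => by
      rw [hmem] at hy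
      exact max_eq_right (by linarith [not_le.1 hy])
    have hT0 : ∀ x, 0 ≤ Top W x := fun x => by
      have := Top_mono (h := fun _ => 0) (h' := W) (fun y => le_max_right _ _) x
      rwa [Top_const] at this
    have hT1 : ∀ x, M - Top Φ x ≤ Top W x := fun x => by
      rw [← Top_const_sub]
      exact Top_mono (fun y => le_max_left _ _) x
    have h3 := sum_le_hasSum S (fun x _ => mul_nonneg (hπ.1 x) (hT0 x)) (hasSum_Top hπ W S hW0)
    have h4 : ∑ x ∈ S, π x * (g x - a) ≤ ∑ x ∈ S, (π x * Top W x - π x * W x) := by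
      refine sum_le_sum fun x hx => ?_
      rw [← mul_sub]
      refine mul_le_mul_of_nonneg_left ?_ (hπ.1 x)
      have : W x = M - Φ x := max_eq_left (by linarith [(hmem x).1 hx])
      linarith [hT1 x, hineq x]
    rw [sum_sub_distrib] at h4
    linarith
  have h3 : Tendsto (fun M : ℝ => (hfin M).toFinset) atTop atTop := by
    refine tendsto_atTop_finset_of_monotone (fun M M' hM x hx => ?_) fun x => ⟨Φ x, by simp⟩
    simp only [Set.Finite.mem_toFinset, Set.mem_ofPred_eq] at hx ⊢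
    exact hx.trans hM
  have h4 : E - a ≤ 0 := le_of_tendsto' (Tendsto.comp h1 h3) h2
  linarith

/-- The Lyapunov function. -/
def V {K : Type} [Field K] (x : ℕ × ℕ) : K := 8 ^ x.1 * 8 ^ x.2 + 1 / 1000 * 31 ^ x.2

theorem V_cast (x : ℕ × ℕ) : ((V x : ℚ) : ℝ) = V x := by simp [V]

theorem drift (x : ℕ × ℕ) (hx : 10 ≤ x.1 + x.2) :
    Top V x + 8 ^ (x.1 + x.2) / 16 ≤ (V x : ℝ) := by
  have h1 : Top V x = 8 ^ (x.1 - 1) * 8 ^ x.2 * (73 / 10) + 1 / 1000 * (16 ^ x.2 * (29 / 2) : ℝ) := by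
    have e : (V : ℕ × ℕ → ℝ) =
        fun y => 8 ^ y.1 * 8 ^ y.2 + 1 / 1000 * (1 ^ y.1 * 31 ^ y.2) := by
      funext y; simp [V]
    rw [e, Top_add, Top_mul, Top_pow, Top_pow]
    norm_num
  rw [h1, V]
  obtain ⟨n, l⟩ := x
  simp only at hx ⊢
  rcases n with _ | n
  · obtain ⟨k, rfl⟩ : ∃ k, l = 10 + k := ⟨l - 10, by omega⟩
    have a1 : (8 : ℝ) ^ k ≤ 16 ^ k := pow_le_pow_left₀ (by norm_num) (by norm_num) k
    have a2 : (16 : ℝ) ^ k ≤ 31 ^ k := pow_le_pow_left₀ (by norm_num) (by norm_num) k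
    have a3 : (0 : ℝ) ≤ 8 ^ k := by positivity
    simp only [zero_add, pow_add, Nat.zero_sub, pow_zero]
    norm_num
    linarith
  · have a1 : (16 : ℝ) ^ l * (29 / 2) ≤ 31 ^ l + 30000 := by
      by_cases hl : l < 5
      · interval_cases l <;> norm_num
      · obtain ⟨k, rfl⟩ : ∃ k, l = 5 + k := ⟨l - 5, by omega⟩
        have a2 : (16 : ℝ) ^ k ≤ 31 ^ k := pow_le_pow_left₀ (by norm_num) (by norm_num) k
        have a3 : (0 : ℝ) ≤ 16 ^ k := by positivity
        simp only [pow_add]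
        norm_num
        linarith
    have a2 : (8 : ℝ) ^ 9 ≤ 8 ^ n * 8 ^ l := by
      rw [← pow_add]
      exact pow_le_pow_right₀ (by norm_num) (by omega)
    simp only [Nat.add_sub_cancel, pow_add, pow_one]
    norm_num at a2 ⊢
    linarith

theorem finite_le (s : ℕ) : {x : ℕ × ℕ | x.1 + x.2 ≤ s}.Finite :=
  ((Set.finite_Iic s).prod (Set.finite_Iic s)).subset fun _ hx =>
    ⟨le_trans (Nat.le_add_right _ _) hx, le_trans (Nat.le_add_left _ _) hx⟩

theorem le_V (x : ℕ × ℕ) : ((x.1 + x.2 : ℕ) : ℝ) ≤ V x := by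
  have h1 : ((x.1 + x.2 : ℕ) : ℝ) ≤ 8 ^ (x.1 + x.2) := by
    exact_mod_cast (Nat.lt_pow_self (by norm_num : 1 < 8)).le
  rw [pow_add] at h1
  have h2 : (0 : ℝ) ≤ 1 / 1000 * 31 ^ x.2 := by positivity
  rw [V]
  linarith

theorem exists_stationary : ∃ π, IsStationary (9 / 10) (1 / 2) π := by
  classical
  obtain ⟨b, hb0, hb⟩ : ∃ b : ℝ, 0 ≤ b ∧ ∀ x : ℕ × ℕ,
      Top V x + ((x.1 + x.2 : ℕ) : ℝ) / 16 ≤ V x + b := by
    obtain ⟨b, hb⟩ := ((finite_le 9).image
      fun x => Top V x + ((x.1 + x.2 : ℕ) : ℝ) / 16 - V x).bddAbove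
    refine ⟨max b 0, le_max_right _ _, fun x => ?_⟩
    by_cases hx : x.1 + x.2 ≤ 9
    · have := hb ⟨x, hx, rfl⟩
      have := le_max_left b 0
      simp only at *
      linarith
    · have h1 := drift x (by omega)
      have h2 : ((x.1 + x.2 : ℕ) : ℝ) ≤ 8 ^ (x.1 + x.2) := by
        exact_mod_cast (Nat.lt_pow_self (by norm_num : 1 < 8)).le
      have := le_max_right b 0
      linarith
  have hpm : ∀ (t : ℕ) (h h' : ℕ × ℕ → ℝ), (∀ y, h y ≤ h' y) →
      ∀ x, (TopL ^ t) h x ≤ (TopL ^ t) h' x := by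
    intro t
    induction t with
    | zero => intro h h' H x; exact H x
    | succ t ih =>
      intro h h' H x
      rw [pow_succ, Module.End.mul_apply, Module.End.mul_apply]
      exact ih _ _ (Top_mono H) x
  have hpc : ∀ (t : ℕ) (c : ℝ), (TopL ^ t) (fun _ => c) = fun _ => c := by
    intro t c
    induction t with
    | zero => rfl
    | succ t ih =>
      rw [pow_succ, Module.End.mul_apply]
      have : TopL (fun _ => c) = fun _ => c := funext (Top_const c)
      rw [this, ih]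
  -- Cesaro averages
  let A : ℕ → (ℕ × ℕ → ℝ) →ₗ[ℝ] ℝ := fun N =>
    (1 / ((N : ℝ) + 1)) • ∑ t ∈ range (N + 1), (LinearMap.proj (0, 0)) ∘ₗ (TopL ^ t)
  have hA : ∀ N h, A N h = 1 / ((N : ℝ) + 1) * ∑ t ∈ range (N + 1), (TopL ^ t) h (0, 0) := by
    intro N h
    simp [A]
  have hAm : ∀ N (h h' : ℕ × ℕ → ℝ), (∀ y, h y ≤ h' y) → A N h ≤ A N h' := by
    intro N h h' H
    rw [hA, hA]
    exact mul_le_mul_of_nonneg_left (sum_le_sum fun t _ => hpm t h h' H _) (by positivity)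
  have hAc : ∀ N (c : ℝ), A N (fun _ => c) = c := by
    intro N c
    rw [hA]
    simp only [hpc, sum_const, card_range, nsmul_eq_mul]
    push_cast
    field_simp
  have hAT : ∀ N h, A N (TopL h) =
      A N h + 1 / ((N : ℝ) + 1) * ((TopL ^ (N + 1)) h (0, 0) - h (0, 0)) := by
    intro N h
    rw [hA, hA, ← mul_add]
    congr 1
    have h1 := sum_range_succ' (fun t => (TopL ^ t) h (0, 0)) (N + 1)
    have h2 := sum_range_succ (fun t => (TopL ^ t) h (0, 0)) (N + 1)
    have h3 : ∀ t, (TopL ^ t) (TopL h) (0, 0) = (TopL ^ (t + 1)) h (0, 0) := fun t => by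
      rw [pow_succ, Module.End.mul_apply]
    simp only [h3]
    simp only [pow_zero, Module.End.one_apply] at h1
    linarith
  let δ : ℕ × ℕ → ℕ × ℕ → ℝ := fun y x => if x = y then 1 else 0
  have hδ0 : ∀ y x, 0 ≤ δ y x := fun y x => by simp only [δ]; split_ifs <;> norm_num
  have hδ1 : ∀ y x, δ y x ≤ 1 := fun y x => by simp only [δ]; split_ifs <;> norm_num
  have hlim : ∀ y, ∃ p ∈ Set.Icc (0 : ℝ) 1, Tendsto (fun N => A N (δ y)) (hyperfilter ℕ) (𝓝 p) := by
    intro y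
    obtain ⟨p, hp, h⟩ := (isCompact_Icc (a := (0 : ℝ)) (b := 1)).ultrafilter_le_nhds
      ((hyperfilter ℕ).map fun N => A N (δ y)) (by
        rw [le_principal_iff, Ultrafilter.coe_map, Filter.mem_map]
        refine Eventually.of_forall fun N => ⟨?_, ?_⟩
        · simpa [hAc] using hAm N (fun _ => 0) _ (hδ0 y)
        · simpa [hAc] using hAm N _ (fun _ => 1) (hδ1 y))
    exact ⟨p, hp, h⟩
  choose π hπI hπ using hlim
  have hfin : ∀ (S : Finset (ℕ × ℕ)) (h : ℕ × ℕ → ℝ), (∀ x ∉ S, h x = 0) →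
      Tendsto (fun N => A N h) (hyperfilter ℕ) (𝓝 (∑ x ∈ S, π x * h x)) := by
    intro S h hS
    have e : h = ∑ x ∈ S, h x • δ x := by
      funext y
      simp only [Finset.sum_apply, Pi.smul_apply, smul_eq_mul, δ, mul_ite, mul_one, mul_zero,
        sum_ite_eq]
      split_ifs with hy
      · rfl
      · exact hS y hy
    have h1 := tendsto_finsetSum S fun x _ => (hπ x).mul_const (h x)
    refine h1.congr fun N => ?_
    conv_rhs => rw [e, map_sum]
    exact sum_congr rfl fun x _ => by rw [map_smul, smul_eq_mul, mul_comm]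
  have hind : ∀ S : Finset (ℕ × ℕ), Tendsto (fun N => A N fun x => if x ∈ S then 1 else 0)
      (hyperfilter ℕ) (𝓝 (∑ x ∈ S, π x)) := by
    intro S
    have h1 := hfin S (fun x => if x ∈ S then 1 else 0) fun x hx => if_neg hx
    rwa [sum_congr rfl fun x hx => by rw [if_pos hx, mul_one]] at h1
  have hle : ∀ S : Finset (ℕ × ℕ), ∑ x ∈ S, π x ≤ 1 := fun S =>
    le_of_tendsto' (hind S) fun N => by
      refine le_trans (hAm N _ (fun _ => 1) fun y => ?_) (hAc N 1).le
      split_ifs <;> norm_num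
  have hsm : Summable π := summable_of_sum_le (fun x => (hπI x).1) hle
  have hsize : ∀ N, A N (fun x => ((x.1 + x.2 : ℕ) : ℝ)) ≤ 16 * (b + 2) := by
    intro N
    have h1 := hAm N (TopL V + (1 / 16 : ℝ) • fun x => ((x.1 + x.2 : ℕ) : ℝ)) (V + fun _ => b)
      fun y => by
        have := hb y
        simp only [Pi.add_apply, Pi.smul_apply, smul_eq_mul]
        change Top V y + _ ≤ _
        linarith
    rw [map_add, map_add, map_smul, hAT, hAc, smul_eq_mul] at h1
    have h2 : 0 ≤ (TopL ^ (N + 1)) V (0, 0) := by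
      have := hpm (N + 1) (fun _ => 0) V (fun y => (Nat.cast_nonneg _).trans (le_V y)) (0, 0)
      rwa [hpc] at this
    have h3 : (V (0, 0) : ℝ) = 1001 / 1000 := by norm_num [V]
    have h4 : 0 < 1 / ((N : ℝ) + 1) := by positivity
    have h5 : 1 / ((N : ℝ) + 1) ≤ 1 := by
      rw [div_le_one (by positivity)]; linarith [Nat.cast_nonneg (α := ℝ) N]
    rw [h3] at h1
    nlinarith [mul_nonneg h4.le h2]
  have hge : ∀ R : ℕ, 1 - 16 * (b + 2) / ((R : ℝ) + 1) ≤ ∑' x, π x := by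
    intro R
    refine le_trans ?_ (hsm.sum_le_tsum (finite_le R).toFinset fun x _ => (hπI x).1)
    refine ge_of_tendsto' (hind _) fun N => ?_
    have hR : (0 : ℝ) < (R : ℝ) + 1 := by positivity
    have h1 := hAm N ((fun _ => 1) - (1 / ((R : ℝ) + 1)) • fun x => ((x.1 + x.2 : ℕ) : ℝ))
      (fun x => if x ∈ (finite_le R).toFinset then 1 else 0) fun y => by
        simp only [Pi.sub_apply, Pi.smul_apply, smul_eq_mul, Set.Finite.mem_toFinset,
          Set.mem_ofPred_eq]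
        split_ifs with hy
        · have : 0 ≤ 1 / ((R : ℝ) + 1) * ((y.1 + y.2 : ℕ) : ℝ) := by positivity
          linarith
        · have h2 : (R : ℝ) + 1 ≤ ((y.1 + y.2 : ℕ) : ℝ) := by exact_mod_cast not_le.1 hy
          rw [sub_nonpos, one_div, inv_mul_eq_div, one_le_div hR]
          exact h2
    rw [map_sub, map_smul, hAc, smul_eq_mul] at h1
    refine le_trans ?_ h1
    have := mul_le_mul_of_nonneg_left (hsize N) (one_div_pos.2 hR).le
    rw [div_eq_mul_one_div (16 * (b + 2)), mul_comm]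
    linarith
  refine ⟨π, fun x => (hπI x).1, ?_, fun y => ?_⟩
  · have h1 : ∑' x, π x = 1 := by
      refine le_antisymm (hsm.tsum_le_of_sum_le hle) ?_
      have h2 : Tendsto (fun R : ℕ => 1 - 16 * (b + 2) / ((R : ℝ) + 1)) atTop (𝓝 (1 - 0)) :=
        (tendsto_const_nhds.div_atTop
          (tendsto_atTop_add_const_right _ 1 tendsto_natCast_atTop_atTop)).const_sub 1
      simpa using le_of_tendsto' h2 hge
    exact h1 ▸ hsm.hasSum
  · have htr : ∀ x, trans (9 / 10) (1 / 2) x y = Top (δ y) x := fun x => by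
      rw [← sum_trans (δ y) {y} (fun z hz => if_neg (by simpa using hz))]
      simp [δ]
    have hz : ∀ x ∉ (finite_le (y.1 + y.2 + 1)).toFinset, Top (δ y) x = 0 := fun x hx =>
      Top_eq_zero (s := y.1 + y.2) (fun z hz => if_neg (by rintro rfl; omega)) (by simpa using hx)
    have h1 := hfin _ (Top (δ y)) hz
    have h2 : Tendsto (fun N => A N (Top (δ y))) (hyperfilter ℕ) (𝓝 (π y + 0)) := by
      have h3 : Tendsto (fun N : ℕ => 1 / ((N : ℝ) + 1) *
          ((TopL ^ (N + 1)) (δ y) (0, 0) - δ y (0, 0))) atTop (𝓝 0) := by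
        refine squeeze_zero_norm (fun N => ?_) tendsto_one_div_add_atTop_nhds_zero_nat
        have a0 := hpm (N + 1) (fun _ => 0) _ (hδ0 y) (0, 0)
        have a1 := hpm (N + 1) _ (fun _ => 1) (hδ1 y) (0, 0)
        rw [hpc] at a0 a1
        rw [norm_mul, Real.norm_of_nonneg (by positivity)]
        refine mul_le_of_le_one_right (by positivity) (abs_le.2 ⟨?_, ?_⟩) <;>
          linarith [hδ0 y (0, 0), hδ1 y (0, 0)]
      exact ((hπ y).add (h3.mono_left Nat.hyperfilter_le_atTop)).congr fun N => (hAT N _).symm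
    have h3 := tendsto_nhds_unique h1 h2
    rw [add_zero] at h3
    simp only [htr]
    rw [← h3]
    exact hasSum_sum_of_ne_finset_zero fun x hx => by rw [hz x hx, mul_zero]

end Pool.Agent.P.MP_4cdbd9_pr
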