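import Mathlib

/-! The late-arrivals chain: transition probabilities, stationary laws, generating function. -/

namespace Pool.Agent.P.MP_4cdbd9_pr

/-- The probability of one step from `x = (n, l)` to `y`: with `ε = 1` (probability `ρ`) or `ε = 0`
(probability `1 - ρ`), `L = l + ε` and `m ∼ Bin(L, 1 - q)`, the next state is
`(n + m - 1[n > 0], L - m)`. -/
noncomputable def trans (ρ q : ℝ) (x y : ℕ × ℕ) : ℝ :=
  ∑ ε ∈ Finset.range 2, ∑ m ∈ Finset.range (x.2 + ε + 1),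
    if y = (x.1 + m - (if 0 < x.1 then 1 else 0), x.2 + ε - m) then
      (if ε = 1 then ρ else 1 - ρ) * (((x.2 + ε).choose m : ℝ) * (1 - q) ^ m * q ^ (x.2 + ε - m))
    else 0

/-- `π` is a stationary probability distribution of the chain. -/
def IsStationary (ρ q : ℝ) (π : ℕ × ℕ → ℝ) : Prop :=
  (∀ x, 0 ≤ π x) ∧ HasSum π 1 ∧ ∀ y, HasSum (fun x => π x * trans ρ q x y) (π y)

/-- The generating function `P(z, y) = ∑ π(n, l) z ^ n y ^ l`. -/
noncomputable def genFun (π : ℕ × ℕ → ℝ) (z y : ℂ) : ℂ :=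
  ∑' x : ℕ × ℕ, (π x : ℂ) * z ^ x.1 * y ^ x.2

end Pool.Agent.P.MP_4cdbd9_pr
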