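import Mathlib

/-! A product form with holomorphic coefficients forces real zeros in `y` for real `z`. -/

namespace Pool.Agent.P.MP_4cdbd9_pr

open Filter Topology Finset Complex
open scoped ComplexConjugate

theorem tprod_differentiable {d : ℕ → ℂ} (hd : Summable fun k => ‖d k‖) :
    Differentiable ℂ fun y : ℂ => ∏' k, (1 + d k * (y - 1)) := by
  intro y
  set R : ℝ := ‖y - 1‖ + 1 with hR
  have hR0 : 0 < R := by positivity
  have h1 := Summable.hasProdLocallyUniformlyOn_nat_one_add
    (f := fun k (w : ℂ) => d k * (w - 1)) (K := Metric.ball 1 R) Metric.isOpen_ball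
    (hd.mul_right R) (Eventually.of_forall fun k w hw => by
      rw [norm_mul]
      exact mul_le_mul_of_nonneg_left (by simpa [dist_eq_norm] using (Metric.mem_ball.1 hw).le)
        (norm_nonneg _)) (fun k => by fun_prop)
  have h2 := h1.tendstoLocallyUniformlyOn_finsetRange.differentiableOn
    (Eventually.of_forall fun N => by fun_prop) Metric.isOpen_ball
  exact h2.differentiableAt (Metric.isOpen_ball.mem_nhds (by simp [dist_eq_norm, hR]))

/-- The zero set of a convergent product of linear factors that is real on the real axis is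
symmetric under conjugation. -/
theorem zeros_conj {a : ℕ → ℂ} {c : ℕ → ℝ} (hc0 : ∀ k, 0 < c k) (hc : Summable c) {f : ℂ → ℂ}
    (hf : ∀ y, ‖y‖ ≤ 1 → Tendsto (fun N => ∏ k ∈ range N, (a k + c k * y)) atTop (𝓝 (f y)))
    (h1 : f 1 ≠ 0) (hconj : ∀ y, ‖y‖ ≤ 1 → f (conj y) = conj (f y)) (k : ℕ) :
    ∃ j, conj (a k / c k) = a j / c j := by
  have hcne : ∀ k, (c k : ℂ) ≠ 0 := fun k => by exact_mod_cast (hc0 k).ne'
  set u : ℕ → ℂ := fun k => a k + c k * 1 with hu
  have hf1 := hf 1 (by simp)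
  have hu0 : ∀ k, u k ≠ 0 := by
    intro k hk
    apply h1
    refine tendsto_nhds_unique hf1 (tendsto_const_nhds.congr' ?_)
    filter_upwards [eventually_gt_atTop k] with N hN
    exact (Finset.prod_eq_zero (mem_range.2 hN) hk).symm
  have hu1 : Tendsto u atTop (𝓝 1) := by
    have h2 := (hf1.comp (tendsto_add_atTop_nat 1)).div hf1 h1
    rw [div_self h1] at h2
    refine h2.congr fun N => ?_
    simp only [Pi.div_apply, Function.comp, prod_range_succ]
    exact mul_div_cancel_left₀ _ (prod_ne_zero_iff.2 fun i _ => hu0 i)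
  set d : ℕ → ℂ := fun k => c k * (u k)⁻¹ with hd
  have hds : Summable fun k => ‖d k‖ := by
    have h2 : Tendsto (fun k => ‖(u k)⁻¹‖) atTop (𝓝 ‖(1 : ℂ)⁻¹‖) := (hu1.inv₀ one_ne_zero).norm
    have h3 : ∀ᶠ k in atTop, ‖(u k)⁻¹‖ ≤ 2 := h2.eventually (ge_mem_nhds (by simp))
    refine Summable.of_norm_bounded_eventually_nat (hc.mul_right 2) ?_
    filter_upwards [h3] with k hk
    rw [norm_norm, hd, norm_mul, Complex.norm_real, Real.norm_of_nonneg (hc0 k).le]
    exact mul_le_mul_of_nonneg_left hk (hc0 k).le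
  have hfac : ∀ k y, a k + c k * y = u k * (1 + d k * (y - 1)) := by
    intro k y
    have := hu0 k
    simp only [hd]
    field_simp
    simp only [hu]
    ring
  have hsum : ∀ y : ℂ, Summable fun k => ‖d k * (y - 1)‖ := fun y => by
    simpa only [norm_mul] using hds.mul_right ‖y - 1‖
  set G : ℂ → ℂ := fun y => ∏' k, (1 + d k * (y - 1)) with hG
  have hGd : Differentiable ℂ G := tprod_differentiable hds
  have hfG : ∀ y, ‖y‖ ≤ 1 → f y = f 1 * G y := by
    intro y hy
    refine tendsto_nhds_unique (hf y hy) ?_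
    have h2 := hf1.mul (multipliable_one_add_of_summable (hsum y)).hasProd.tendsto_prod_nat
    refine h2.congr fun N => ?_
    rw [← prod_mul_distrib]
    exact prod_congr rfl fun k _ => (hfac k y).symm
  have hreal : conj (f 1) = f 1 := by rw [← hconj 1 (by simp), map_one]
  have hG' : Differentiable ℂ (conj ∘ G ∘ conj) := fun y =>
    differentiableAt_conj_conj_iff.2 (hGd _)
  have heq : (conj ∘ G ∘ conj : ℂ → ℂ) = G := by
    refine AnalyticOnNhd.eq_of_eventuallyEq (z₀ := 0)
      (fun z _ => hG'.analyticAt z) (fun z _ => hGd.analyticAt z) ?_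
    filter_upwards [Metric.closedBall_mem_nhds (0 : ℂ) one_pos] with y hy
    have hy' : ‖y‖ ≤ 1 := by simpa using hy
    have h2 := hconj y hy'
    rw [hfG _ (by simpa using hy'), hfG y hy', map_mul, hreal] at h2
    have h3 := mul_left_cancel₀ h1 h2
    simp only [Function.comp]
    rw [h3, Complex.conj_conj]
  have hz : G (-(a k / c k)) = 0 := by
    refine tprod_of_exists_eq_zero ⟨k, ?_⟩
    have h2 := hfac k (-(a k / c k))
    have h3 : a k + c k * -(a k / c k) = 0 := by
      have := hcne k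
      field_simp
      ring
    rw [h3] at h2
    exact (mul_eq_zero.1 h2.symm).resolve_left (hu0 k)
  have hz' : G (conj (-(a k / c k))) = 0 := by
    have h2 := congrFun heq (-(a k / c k))
    simp only [Function.comp] at h2
    rw [hz] at h2
    simpa using h2
  by_contra hcon
  push Not at hcon
  refine tprod_one_add_ne_zero_of_summable (fun j hj => hcon j ?_) (hsum _) hz'
  have h2 := hfac j (conj (-(a k / c k)))
  rw [hj, mul_zero, map_neg] at h2
  rw [eq_div_iff (hcne j)]
  linear_combination -h2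

/-- Properties of one inner series. -/
theorem inner_series {β : ℕ → ℂ} {b : ℂ → ℂ}
    (hb : ∀ z, ‖z‖ ≤ 1 →
      Tendsto (fun N => ∑ j ∈ range N, β (j + 1) * (z ^ (j + 1) - 1)) atTop (𝓝 (b z))) :
    DifferentiableOn ℂ b (Metric.ball 0 1) ∧
      Tendsto (fun x : ℝ => b x) (𝓝[<] 1) (𝓝 0) := by
  have h0 : Tendsto (fun N => ∑ j ∈ range N, β (j + 1)) atTop (𝓝 (-b 0)) := by
    refine (hb 0 (by simp)).neg.congr fun N => ?_
    simp
  have hβ0 : Tendsto (fun N => β (N + 1)) atTop (𝓝 0) := by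
    have h1 := (h0.comp (tendsto_add_atTop_nat 1)).sub h0
    rw [sub_self] at h1
    refine h1.congr fun N => ?_
    simp [sum_range_succ]
  obtain ⟨C, hC⟩ : ∃ C, ∀ N, ‖β (N + 1)‖ ≤ C := by
    obtain ⟨C, hC⟩ := hβ0.norm.bddAbove_range
    exact ⟨C, fun N => hC ⟨N, rfl⟩⟩
  have hbd : ∀ (r : ℝ) (j : ℕ) (z : ℂ), ‖z‖ ≤ r → ‖β (j + 1) * z ^ j‖ ≤ C * r ^ j := by
    intro r j z hz
    rw [norm_mul, norm_pow]
    exact mul_le_mul (hC j) (pow_le_pow_left₀ (norm_nonneg _) hz j) (by positivity)
      ((norm_nonneg _).trans (hC 0))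
  set B : ℂ → ℂ := fun z => ∑' j, β (j + 1) * z ^ j with hB
  have hbB : ∀ z : ℂ, ‖z‖ < 1 → b z = z * B z + b 0 := by
    intro z hz
    have hs : Summable fun j => β (j + 1) * z ^ j :=
      Summable.of_norm_bounded ((summable_geometric_of_lt_one (norm_nonneg z) hz).mul_left C)
        fun j => hbd _ j z le_rfl
    have h1 := (hs.hasSum.tendsto_sum_nat.const_mul z).sub h0
    rw [sub_neg_eq_add] at h1
    refine tendsto_nhds_unique (hb z hz.le) (h1.congr fun N => ?_)
    rw [mul_sum, ← sum_sub_distrib]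
    exact sum_congr rfl fun j _ => by ring
  constructor
  · intro z hz
    have hz' : ‖z‖ < 1 := by simpa using hz
    set r : ℝ := (‖z‖ + 1) / 2 with hr
    have hr0 : 0 ≤ r := by positivity
    have hr1 : r < 1 := by linarith
    have h1 : DifferentiableOn ℂ B (Metric.ball 0 r) :=
      differentiableOn_tsum_of_summable_norm
        ((summable_geometric_of_lt_one hr0 hr1).mul_left C) (fun j => by fun_prop)
        Metric.isOpen_ball fun j w hw => hbd r j w (by simpa using (Metric.mem_ball.1 hw).le)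
    have h2 : DifferentiableAt ℂ B z :=
      h1.differentiableAt (Metric.isOpen_ball.mem_nhds (by simp; linarith))
    have h3 : DifferentiableAt ℂ (fun w => w * B w + b 0) z := by fun_prop
    refine (h3.congr_of_eventuallyEq ?_).differentiableWithinAt
    filter_upwards [Metric.isOpen_ball.mem_nhds hz] with w hw
    exact hbB w (by simpa using hw)
  · have h1 := Complex.tendsto_tsum_powerSeries_nhdsWithin_lt h0
    rw [tendsto_map'_iff] at h1
    have h2 : Tendsto (fun x : ℝ => (x : ℂ)) (𝓝[<] 1) (𝓝 1) :=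
      (Complex.continuous_ofReal.tendsto' 1 1 (by simp)).mono_left nhdsWithin_le_nhds
    have h3 := (h2.mul h1).add_const (b 0)
    rw [one_mul, neg_add_cancel] at h3
    refine h3.congr' ?_
    filter_upwards [Ioo_mem_nhdsLT (show (0 : ℝ) < 1 by norm_num)] with x hx
    rw [hbB x (by rw [Complex.norm_real, Real.norm_of_nonneg hx.1.le]; exact hx.2)]
    rfl

/-- A family of holomorphic functions on the disc whose values at real points are permuted by
conjugation, with distinct real radial limits at `1`, is real on the real diameter. -/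
theorem real_of_perm {Y : ℕ → ℂ → ℂ} {L : ℕ → ℝ} (hL : Function.Injective L)
    (hY : ∀ k, DifferentiableOn ℂ (Y k) (Metric.ball 0 1))
    (hlim : ∀ k, Tendsto (fun x : ℝ => Y k x) (𝓝[<] 1) (𝓝 (L k)))
    (hperm : ∀ x : ℝ, 0 < x → x < 1 → ∀ k, ∃ j, conj (Y k x) = Y j x) (k : ℕ) (x : ℝ)
    (hx : |x| < 1) : conj (Y k x) = Y k x := by
  obtain ⟨j, hj⟩ : ∃ j, {t : ℝ | t ∈ Set.Icc (1 / 4 : ℝ) (1 / 2) ∧ conj (Y k t) = Y j t}.Infinite := by
    by_contra hcon
    push Not at hcon
    have h1 : (Set.Icc (1 / 4 : ℝ) (1 / 2)).Countable := by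
      refine (Set.countable_iUnion fun j => (hcon j).countable).mono fun t ht => ?_
      obtain ⟨j, hj⟩ := hperm t (by linarith [ht.1]) (by linarith [ht.2]) k
      exact Set.mem_iUnion.2 ⟨j, ht, hj⟩
    have h2 := h1.measure_zero MeasureTheory.volume
    norm_num at h2
  obtain ⟨x0, hx0, hacc⟩ := hj.exists_accPt_of_subset_isCompact isCompact_Icc fun t ht => ht.1
  have hA : AnalyticOnNhd ℂ (conj ∘ Y k ∘ conj) (Metric.ball 0 1) := by
    refine DifferentiableOn.analyticOnNhd (fun z hz => ?_) Metric.isOpen_ball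
    refine (differentiableAt_conj_conj_iff.2 ?_).differentiableWithinAt
    exact (hY k).differentiableAt (Metric.isOpen_ball.mem_nhds (by simpa using hz))
  have hfreq : ∃ᶠ z in 𝓝[≠] (x0 : ℂ), (conj ∘ Y k ∘ conj : ℂ → ℂ) z = Y j z := by
    rw [accPt_iff_frequently_nhdsNE] at hacc
    have h1 : Tendsto (fun t : ℝ => (t : ℂ)) (𝓝[≠] x0) (𝓝[≠] (x0 : ℂ)) :=
      tendsto_nhdsWithin_iff.2 ⟨(Complex.continuous_ofReal.tendsto x0).mono_left nhdsWithin_le_nhds,
        by filter_upwards [self_mem_nhdsWithin] with t ht; simpa using ht⟩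
    refine h1.frequently (hacc.mono fun t ht => ?_)
    simpa using ht.2
  have hEq := hA.eqOn_of_preconnected_of_frequently_eq
    ((hY j).analyticOnNhd Metric.isOpen_ball) (convex_ball (0 : ℂ) 1).isPreconnected
    (z₀ := (x0 : ℂ)) (by
      simp only [Metric.mem_ball, dist_zero_right, Complex.norm_real, Real.norm_eq_abs]
      rw [abs_lt]
      constructor <;> linarith [hx0.1, hx0.2]) hfreq
  have hEq' : ∀ t : ℝ, |t| < 1 → conj (Y k t) = Y j t := fun t ht => by
    simpa using hEq (x := (t : ℂ)) (by simpa using ht)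
  have hjk : k = j := by
    apply hL
    have h1 : Tendsto (fun t : ℝ => conj (Y k t)) (𝓝[<] 1) (𝓝 (conj (L k : ℂ))) :=
      (Complex.continuous_conj.tendsto _).comp (hlim k)
    have h2 : Tendsto (fun t : ℝ => conj (Y k t)) (𝓝[<] 1) (𝓝 (L j : ℂ)) := by
      refine (hlim j).congr' ?_
      filter_upwards [Ioo_mem_nhdsLT (show (0 : ℝ) < 1 by norm_num)] with t ht
      exact (hEq' t (by rw [abs_of_pos ht.1]; exact ht.2)).symm
    have h3 := tendsto_nhds_unique h1 h2
    rw [Complex.conj_ofReal] at h3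
    exact_mod_cast h3
  subst hjk
  exact hEq' x hx

/-- If `P` has the product form, then for real `z`, `y`, `η` one has
`‖P z y‖ ≤ ‖P z (y + i η)‖`. -/
theorem norm_le_of_product {ρ q : ℝ} (hρ : 0 < ρ) (hq0 : 0 < q) (hq1 : q < 1) {P : ℂ → ℂ → ℂ}
    (hconj : ∀ (x : ℝ) (y : ℂ), |x| ≤ 1 → ‖y‖ ≤ 1 → P x (conj y) = conj (P x y))
    (hpos : ∀ x : ℝ, 0 < x → x < 1 → P x 1 ≠ 0) {β : ℕ → ℕ → ℂ} {b : ℕ → ℂ → ℂ}
    (hb : ∀ k z, ‖z‖ ≤ 1 →
      Tendsto (fun N => ∑ j ∈ range N, β k (j + 1) * (z ^ (j + 1) - 1)) atTop (𝓝 (b k z)))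
    (hP : ∀ z y : ℂ, ‖z‖ ≤ 1 → ‖y‖ ≤ 1 →
      Tendsto (fun N => ∏ k ∈ range N, (1 + (ρ : ℂ) * q ^ (k + 1) * (y - z) + q ^ k * b k z))
        atTop (𝓝 (P z y)))
    (x y η : ℝ) (hx : |x| < 1) (hy : |y| ≤ 1) (hη : ‖(y : ℂ) + η * I‖ ≤ 1) :
    ‖P x y‖ ≤ ‖P x (y + η * I)‖ := by
  set c : ℕ → ℝ := fun k => ρ * q ^ (k + 1) with hc
  have hc0 : ∀ k, 0 < c k := fun k => by positivity
  have hcne : ∀ k, (c k : ℂ) ≠ 0 := fun k => by exact_mod_cast (hc0 k).ne'
  have hcs : Summable c := by
    simpa only [hc, pow_succ, ← mul_assoc] using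
      ((summable_geometric_of_lt_one hq0.le hq1).mul_left ρ).mul_right q
  set a : ℕ → ℂ → ℂ := fun k z => 1 - c k * z + q ^ k * b k z with ha
  have hP' : ∀ z y : ℂ, ‖z‖ ≤ 1 → ‖y‖ ≤ 1 →
      Tendsto (fun N => ∏ k ∈ range N, (a k z + c k * y)) atTop (𝓝 (P z y)) := by
    intro z y hz hy
    refine (hP z y hz hy).congr fun N => prod_congr rfl fun k _ => ?_
    simp only [ha, hc]
    push_cast
    ring
  have hreal := real_of_perm (Y := fun k z => a k z / c k) (L := fun k => (1 - c k) / c k)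
    (by
      intro i j hij
      have h1 : c i = c j := by
        have := hc0 i
        have := hc0 j
        simp only at hij
        field_simp at hij
        linarith
      have h2 := mul_left_cancel₀ hρ.ne' h1
      have h3 := pow_right_injective₀ hq0 hq1.ne h2
      omega)
    (fun k => by
      have := (inner_series (hb k)).1
      simp only [ha]
      fun_prop)
    (fun k => by
      have h1 := (inner_series (hb k)).2
      have h2 : Tendsto (fun x : ℝ => (x : ℂ)) (𝓝[<] 1) (𝓝 1) :=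
        (Complex.continuous_ofReal.tendsto' 1 1 (by simp)).mono_left nhdsWithin_le_nhds
      have h3 := (((h2.const_mul (c k : ℂ)).const_sub 1).add (h1.const_mul ((q : ℂ) ^ k))).div_const
        (c k : ℂ)
      simpa [ha] using h3)
    (fun t ht0 ht1 k => by
      have ht : ‖(t : ℂ)‖ ≤ 1 := by
        rw [Complex.norm_real, Real.norm_of_nonneg ht0.le]; exact ht1.le
      exact zeros_conj hc0 hcs (fun y hy => hP' t y ht hy) (hpos t ht0 ht1)
        (fun y hy => hconj t y (by rw [abs_of_pos ht0]; exact ht1.le) hy) k)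
  have him : ∀ k, (a k x).im = 0 := by
    intro k
    have h1 := hreal k x hx
    simp only [map_div₀, Complex.conj_ofReal] at h1
    exact Complex.conj_eq_iff_im.1 ((div_left_inj' (hcne k)).1 h1)
  have hx' : ‖(x : ℂ)‖ ≤ 1 := by simpa using hx.le
  refine le_of_tendsto_of_tendsto' (hP' x y hx' (by simpa using hy)).norm (hP' x _ hx' hη).norm
    fun N => ?_
  rw [norm_prod, norm_prod]
  refine prod_le_prod (fun k _ => norm_nonneg _) fun k _ => ?_
  have h1 : ‖a k x + c k * y‖ = |(a k x + c k * ((y : ℂ) + η * I)).re| := by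
    rw [← Complex.abs_re_eq_norm.2 (by simp [him k])]
    simp
  rw [h1]
  exact Complex.abs_re_le_norm _

end Pool.Agent.P.MP_4cdbd9_pr
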