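import Pool.Agent.P.MP_4cdbd9_pr.Cert
import Pool.Agent.P.MP_4cdbd9_pr.Structure

/-! The generating function at `ρ = 9/10`, `q = 1/2` has no product form. -/

namespace Pool.Agent.P.MP_4cdbd9_pr

open Filter Topology Finset Complex
open scoped ComplexConjugate

variable {π : ℕ × ℕ → ℝ}

theorem norm_term_le {z y : ℂ} (hz : ‖z‖ ≤ 1) (hy : ‖y‖ ≤ 1) (x : ℕ × ℕ) :
    ‖z ^ x.1 * y ^ x.2‖ ≤ 1 := by
  rw [norm_mul, norm_pow, norm_pow]
  exact mul_le_one₀ (pow_le_one₀ (norm_nonneg _) hz) (by positivity)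
    (pow_le_one₀ (norm_nonneg _) hy)

theorem hasSum_genFun (h0 : ∀ x, 0 ≤ π x) (h1 : HasSum π 1) {z y : ℂ} (hz : ‖z‖ ≤ 1)
    (hy : ‖y‖ ≤ 1) : HasSum (fun x : ℕ × ℕ => (π x : ℂ) * z ^ x.1 * y ^ x.2) (genFun π z y) := by
  refine (Summable.of_norm_bounded h1.summable fun x => ?_).hasSum
  rw [mul_assoc, norm_mul, Complex.norm_real, Real.norm_of_nonneg (h0 x)]
  exact mul_le_of_le_one_right (h0 x) (norm_term_le hz hy x)

theorem genFun_conj (x : ℝ) (y : ℂ) : genFun π x (conj y) = conj (genFun π x y) := by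
  simp [genFun, Complex.conj_tsum]

theorem genFun_ne (h0 : ∀ x, 0 ≤ π x) (h1 : HasSum π 1) (t : ℝ) (ht0 : 0 < t) (ht1 : t < 1) :
    genFun π t 1 ≠ 0 := by
  have h2 := hasSum_re (hasSum_genFun h0 h1 (z := t) (y := 1)
    (by rw [Complex.norm_real, Real.norm_of_nonneg ht0.le]; exact ht1.le) (by simp))
  have e : (fun x : ℕ × ℕ => ((π x : ℂ) * (t : ℂ) ^ x.1 * 1 ^ x.2).re) = fun x => π x * t ^ x.1 := by
    funext x
    rw [one_pow, mul_one, ← Complex.ofReal_pow, ← Complex.ofReal_mul, Complex.ofReal_re]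
  rw [e] at h2
  obtain ⟨x, hx⟩ : ∃ x, π x ≠ 0 := by
    by_contra h
    push Not at h
    have : π = fun _ => 0 := funext h
    rw [this] at h1
    exact zero_ne_one (hasSum_zero.unique h1)
  have h3 := (mul_pos (lt_of_le_of_ne (h0 x) hx.symm) (pow_pos ht0 x.1)).trans_le
    (le_hasSum h2 x fun y _ => mul_nonneg (h0 y) (by positivity))
  intro h
  rw [h] at h3
  simp at h3

theorem numeric (hπ : IsStationary (9 / 10) (1 / 2) π) :
    ‖genFun π ((-7 / 8 : ℝ) : ℂ) (((1 / 4 : ℝ) : ℂ) + ((3 / 8 : ℝ) : ℂ) * I)‖ <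
      ‖genFun π ((-7 / 8 : ℝ) : ℂ) ((1 / 4 : ℝ) : ℂ)‖ := by
  have hz : ‖((-7 / 8 : ℝ) : ℂ)‖ ≤ 1 := by
    rw [Complex.norm_real, Real.norm_eq_abs, abs_le]; constructor <;> norm_num
  have hy : ‖((1 / 4 : ℝ) : ℂ)‖ ≤ 1 := by
    rw [Complex.norm_real, Real.norm_eq_abs, abs_le]; constructor <;> norm_num
  have hw : ‖((1 / 4 : ℝ) : ℂ) + ((3 / 8 : ℝ) : ℂ) * I‖ ≤ 1 := by
    refine (Complex.norm_le_abs_re_add_abs_im _).trans ?_
    simp
    norm_num [abs_of_pos]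
  set w : ℂ := ((1 / 4 : ℝ) : ℂ) + ((3 / 8 : ℝ) : ℂ) * I with hwdef
  have e0 : ∀ x : ℕ × ℕ, (((-7 / 8 : ℝ) : ℂ) ^ x.1 * ((1 / 4 : ℝ) : ℂ) ^ x.2).re = g0 x := by
    intro x
    rw [← Complex.ofReal_pow, ← Complex.ofReal_pow, ← Complex.ofReal_mul, Complex.ofReal_re]
    simp [g0]
  have e1 : ∀ x : ℕ × ℕ, (((-7 / 8 : ℝ) : ℂ) ^ x.1 * w ^ x.2).re = g1 x := by
    intro x
    rw [← Complex.ofReal_pow, Complex.re_ofReal_mul, (cp_spec x.2).1]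
    simp [g1]
  have e3 : ∀ x : ℕ × ℕ, (((-7 / 8 : ℝ) : ℂ) ^ x.1 * w ^ x.2).im = g3 x := by
    intro x
    rw [← Complex.ofReal_pow, Complex.im_ofReal_mul, (cp_spec x.2).2]
    simp [g3]
  have e2 : ∀ x, (g2 x : ℝ) = -g1 x := fun x => by simp [g1, g2]
  have e4 : ∀ x, (g4 x : ℝ) = -g3 x := fun x => by simp [g3, g4]
  have b0 : ∀ x, |(g0 x : ℝ)| ≤ 1 := fun x =>
    e0 x ▸ (Complex.abs_re_le_norm _).trans (norm_term_le hz hy x)
  have b1 : ∀ x, |(g1 x : ℝ)| ≤ 1 := fun x =>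
    e1 x ▸ (Complex.abs_re_le_norm _).trans (norm_term_le hz hw x)
  have b3 : ∀ x, |(g3 x : ℝ)| ≤ 1 := fun x =>
    e3 x ▸ (Complex.abs_im_le_norm _).trans (norm_term_le hz hw x)
  have s0 := hasSum_re (hasSum_genFun hπ.1 hπ.2.1 hz hy)
  have s1 := hasSum_re (hasSum_genFun hπ.1 hπ.2.1 hz hw)
  have s3 := hasSum_im (hasSum_genFun hπ.1 hπ.2.1 hz hw)
  simp only [mul_assoc, Complex.re_ofReal_mul, Complex.im_ofReal_mul, e0, e1, e3] at s0 s1 s3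
  have r0 := bound_of_check hπ tab0 g0 _ (by norm_num) (fun x => (abs_le.1 (b0 x)).2) check0 s0
  have r1 := bound_of_check hπ tab1 g1 _ (by norm_num) (fun x => (abs_le.1 (b1 x)).2) check1 s1
  have r2 := bound_of_check hπ tab2 g2 _ (by norm_num)
    (fun x => by rw [e2]; linarith [(abs_le.1 (b1 x)).1]) check2
    (by simpa only [e2, mul_neg] using s1.neg)
  have r3 := bound_of_check hπ tab3 g3 _ (by norm_num) (fun x => (abs_le.1 (b3 x)).2) check3 s3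
  have r4 := bound_of_check hπ tab4 g4 _ (by norm_num)
    (fun x => by rw [e4]; linarith [(abs_le.1 (b3 x)).1]) check4
    (by simpa only [e4, mul_neg] using s3.neg)
  push_cast at r0 r1 r2 r3 r4
  have t1 : (4 / 10000 : ℝ) ≤ ‖genFun π ((-7 / 8 : ℝ) : ℂ) ((1 / 4 : ℝ) : ℂ)‖ := by
    refine le_trans ?_ (Complex.abs_re_le_norm _)
    rw [le_abs]
    right
    push_cast
    linarith
  refine lt_of_lt_of_le ?_ t1
  rw [Complex.norm_eq_sqrt_sq_add_sq, Real.sqrt_lt' (by norm_num)]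
  push_cast
  nlinarith

theorem no_product (hπ : IsStationary (9 / 10) (1 / 2) π) {β : ℕ → ℕ → ℂ} {b : ℕ → ℂ → ℂ}
    (hb : ∀ k z, ‖z‖ ≤ 1 →
      Tendsto (fun N => ∑ j ∈ range N, β k (j + 1) * (z ^ (j + 1) - 1)) atTop (𝓝 (b k z)))
    (hP : ∀ z y : ℂ, ‖z‖ ≤ 1 → ‖y‖ ≤ 1 →
      Tendsto (fun N => ∏ k ∈ range N, (1 + ((9 / 10 : ℝ) : ℂ) * ((1 / 2 : ℝ) : ℂ) ^ (k + 1) *
        (y - z) + ((1 / 2 : ℝ) : ℂ) ^ k * b k z)) atTop (𝓝 (genFun π z y))) : False := by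
  refine absurd (norm_le_of_product (by norm_num) (by norm_num) (by norm_num)
    (fun x y _ _ => genFun_conj x y) (genFun_ne hπ.1 hπ.2.1) hb hP (-7 / 8) (1 / 4) (3 / 8)
    (by rw [abs_lt]; constructor <;> norm_num) (by rw [abs_le]; constructor <;> norm_num) ?_)
    (not_le.2 (numeric hπ))
  refine (Complex.norm_le_abs_re_add_abs_im _).trans ?_
  simp
  norm_num [abs_of_pos]

end Pool.Agent.P.MP_4cdbd9_pr
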